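import Mathlib

set_option autoImplicit false
set_option maxHeartbeats 400000
set_option linter.unusedSimpArgs false

namespace Pool.Agent.Results.MP_2093e0_al.Iff

/-- `a` is the sum of an idempotent and a nilpotent that commute. -/
def SNC {R : Type} [Ring R] (a : R) : Prop :=
  ∃ e b : R, IsIdempotentElem e ∧ IsNilpotent b ∧ e * b = b * e ∧ a = e + b

/-- `U(R) = Nil(R) ± 1`. -/
def WUU (R : Type) [Ring R] : Prop :=
  ∀ u : R, IsUnit u ↔ ∃ n : R, IsNilpotent n ∧ (u = n + 1 ∨ u = n - 1)

/-- Every right ideal not inside the Jacobson radical contains a nonzero idempotent. -/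
def SemiPotent (R : Type) [Ring R] : Prop :=
  ∀ I : Submodule Rᵐᵒᵖ R, (¬ ∀ x ∈ I, x ∈ Ring.jacobson R) → ∃ e ∈ I, IsIdempotentElem e ∧ e ≠ 0

section
variable {S : Type} [Ring S]

theorem idem_zero {w c E : S} (hw : IsNilpotent w) (hc : w * c = c * w) (h : w * c = E)
    (hE : E * E = E) : E = 0 :=
  IsIdempotentElem.eq_zero_of_isNilpotent hE (h ▸ (Commute.isNilpotent_mul_right hc hw))

theorem no_units (W : ∀ u : S, IsUnit u → IsNilpotent (u - 1) ∨ IsNilpotent (u + 1)) {x y : S}
    (hx : x * x = 0) (hy : y * y = 0) (h1 : x * (y * x) = x) (h2 : y * (x * y) = y) :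
    x * y = 0 := by
  have a1 : ∀ t, x * (x * t) = 0 := fun t => by rw [← mul_assoc, hx, zero_mul]
  have a2 : ∀ t, y * (y * t) = 0 := fun t => by rw [← mul_assoc, hy, zero_mul]
  have a3 : ∀ t, x * (y * (x * t)) = x * t := fun t => by rw [← mul_assoc y, ← mul_assoc, h1]
  have a4 : ∀ t, y * (x * (y * t)) = y * t := fun t => by rw [← mul_assoc x, ← mul_assoc, h2]
  have hu : IsUnit (x + y + 1 - x * y) :=
    ⟨⟨x + y + 1 - x * y, x + y + 1 - x * y - x * y - y * x,
      by simp only [mul_add, add_mul, mul_sub, sub_mul, mul_assoc, hx, hy, h1, h2, a1, a2, a3, a4,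
          mul_one, one_mul, mul_zero]; abel,
      by simp only [mul_add, add_mul, mul_sub, sub_mul, mul_assoc, hx, hy, h1, h2, a1, a2, a3, a4,
          mul_one, one_mul, mul_zero]; abel⟩, rfl⟩
  have hE : x * y + y * x = 0 := by
    rcases W _ hu with h | h
    · refine idem_zero h (c := x + y + y * x) ?_ ?_ ?_ <;>
      simp only [mul_add, add_mul, mul_sub, sub_mul, mul_assoc, hx, hy, h1, h2, a1, a2, a3, a4,
          mul_one, one_mul, mul_zero] <;> abel
    · refine idem_zero h (c := x * y + x * y + y * x - x - y) ?_ ?_ ?_ <;>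
      simp only [mul_add, add_mul, mul_sub, sub_mul, mul_assoc, hx, hy, h1, h2, a1, a2, a3, a4,
          mul_one, one_mul, mul_zero] <;> abel
  have := congrArg (fun t => x * (y * t)) hE
  simpa only [mul_add, a1, a2, a3, a4, h2, mul_zero, add_zero] using this

variable (W : ∀ u : S, IsUnit u → IsNilpotent (u - 1) ∨ IsNilpotent (u + 1))
  (P : ∀ a : S, a ≠ 0 → ∃ r, a * r * (a * r) = a * r ∧ a * r ≠ 0)
include W P

theorem sq_zero (a : S) (h : a * a = 0) : a = 0 := by
  by_contra ha
  obtain ⟨r, h1, h2⟩ := P a ha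
  obtain ⟨e, he⟩ : ∃ e, e = a * r := ⟨_, rfl⟩
  rw [← he] at h1 h2
  have k1 : a * e = 0 := by rw [he, ← mul_assoc, h, zero_mul]
  have k2 : ∀ t, a * (e * t) = 0 := fun t => by rw [← mul_assoc, k1, zero_mul]
  have k3 : ∀ t, e * (e * t) = e * t := fun t => by rw [← mul_assoc, h1]
  have k4 : ∀ t, a * (r * t) = e * t := fun t => by rw [← mul_assoc, he]
  have hxy : e * a * (r * e - e * (r * e)) = e := by
    simp only [mul_sub, mul_assoc, k2, k3, k4, h1, mul_zero, sub_zero]
  apply h2
  rw [← hxy]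
  apply no_units W
  · simp only [mul_assoc, k2, mul_zero]
  · simp only [mul_sub, sub_mul, mul_assoc, k3, sub_self]
  · rw [← mul_assoc, hxy, k3]
  · rw [hxy]
    simp only [sub_mul, mul_assoc, h1]

theorem nil_zero (a : S) (h : IsNilpotent a) : a = 0 := by
  have : IsReduced S := (isReduced_iff_pow_one_lt 2 (by norm_num)).2 fun x hx =>
    sq_zero W P x (by rwa [← pow_two])
  exact h.eq_zero

theorem central {e : S} (he : e * e = e) (t : S) : e * t = t * e := by
  have k : ∀ t, e * (e * t) = e * t := fun t => by rw [← mul_assoc, he]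
  have h1 := sq_zero W P (e * t - e * (t * e)) (by
    simp only [mul_sub, sub_mul, mul_assoc, k, sub_self])
  have h2 := sq_zero W P (t * e - e * (t * e)) (by
    simp only [mul_sub, sub_mul, mul_assoc, k, sub_self])
  exact (sub_eq_zero.1 h1).trans (sub_eq_zero.1 h2).symm

theorem key (a : S) (h : a * a ≠ a) :
    ∃ e r : S, e * e = e ∧ e ≠ 0 ∧ e * a = -e ∧ (1 - e) + (1 - e) = 0 ∧ (e + e) * r = e := by
  obtain ⟨r, h1, h2⟩ := P (a * a - a) (sub_ne_zero.2 h)
  obtain ⟨e, he⟩ : ∃ e, e = (a * a - a) * r := ⟨_, rfl⟩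
  rw [← he] at h1 h2
  have c := central W P h1
  obtain ⟨s, hs⟩ : ∃ s, s = (a - 1) * r := ⟨_, rfl⟩
  have has : a * s = e := by rw [hs, he, ← mul_assoc, mul_sub, mul_one]
  have k : ∀ t, e * (e * t) = e * t := fun t => by rw [← mul_assoc, h1]
  have hg : e * (s * a) * (e * (s * a)) = e * (s * a) := by
    have q1 : ∀ t, s * (a * (e * t)) = e * (s * (a * t)) := fun t => by
      rw [← mul_assoc s, ← mul_assoc (s * a), ← c (s * a), mul_assoc e, mul_assoc s]
    have q2 : s * (a * (s * a)) = e * (s * a) := by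
      rw [← mul_assoc a, has, ← mul_assoc s, ← c s, mul_assoc e]
    simp only [mul_assoc, q1, q2, k]
  have hsa : e * (s * a) = e := by
    have c2 := central W P hg
    have h3 : a * (e * (s * a)) = e * a := by
      rw [← mul_assoc, ← c a, mul_assoc, ← mul_assoc a, has, k]
    calc e * (s * a) = e * (s * a) * (a * s) := by rw [has, ← c, k]
      _ = a * (e * (s * a)) * s := by rw [← mul_assoc, c2 a]
      _ = e := by rw [h3, mul_assoc, has, h1]
  have hu : IsUnit (e * a + (1 - e)) := by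
    refine ⟨⟨e * a + (1 - e), e * s + (1 - e), ?_, ?_⟩, rfl⟩
    · have : a * (e * s) = e := by rw [← mul_assoc, ← c a, mul_assoc, has, h1]
      simp only [mul_add, add_mul, mul_sub, sub_mul, mul_assoc, this, ← c a, k, h1, mul_one,
        one_mul]
      abel
    · have : s * (e * a) = e := by rw [← mul_assoc, ← c s, mul_assoc, hsa]
      simp only [mul_add, add_mul, mul_sub, sub_mul, mul_assoc, this, ← c s, k, h1, mul_one,
        one_mul]
      abel
  have hes : e = a * (e * (a - 1) * r) := by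
    rw [mul_assoc e, ← hs, ← mul_assoc, ← c a, mul_assoc, has, h1]
  rcases W _ hu with h4 | h4
  · exfalso
    have h5 := nil_zero W P _ h4
    have h6 : e * (a - 1) = 0 := by rw [← h5, mul_sub, mul_one]; abel
    rw [h6, zero_mul, mul_zero] at hes
    exact h2 hes
  · have h5 := nil_zero W P _ h4
    have h6 : e * a = -e := by
      have := congrArg (fun t => e * t) h5
      simp only [mul_add, mul_sub, k, h1, mul_one, mul_zero, sub_self, add_zero] at this
      exact eq_neg_of_add_eq_zero_left this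
    refine ⟨e, r, h1, h2, h6, ?_, ?_⟩
    · rw [← h5, h6]; abel
    · have h7 : e * (a - 1) = -(e + e) := by rw [mul_sub, h6, mul_one]; abel
      have h8 : a * (e + e) = -(e + e) := by rw [mul_add, ← c a, h6]; abel
      rw [h7, ← mul_assoc, mul_neg, h8, neg_neg] at hes
      exact hes.symm

theorem tri (a : S) : a * a = a ∨ -a * -a = -a := by
  by_contra h
  rw [not_or] at h
  obtain ⟨e, r, e1, e2, e3, -, e5⟩ := key W P a h.1
  obtain ⟨f, -, f1, -, f3, f4, -⟩ := key W P (-a) h.2
  have c := central W P e1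
  have h1 : e * f + e * f = 0 := by
    have k1 : e * f * a = e * f := by rw [mul_assoc, ← neg_inj, ← mul_neg, ← mul_neg, f3, mul_neg]
    have k2 : e * f * a = -(e * f) := by rw [c f, mul_assoc, e3, mul_neg]
    nth_rewrite 1 [← k1]
    rw [k2, neg_add_cancel]
  have h2 : e + e = 0 := by
    have := congrArg (fun t => e * t) f4
    simp only [mul_add, mul_sub, mul_one, mul_zero] at this
    rw [← this, ← sub_zero (e + e), ← h1]; abel
  rw [h2, zero_mul] at e5
  exact e2 e5.symm

end

section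
variable {R : Type} [Ring R]

theorem unit_of_J {j : R} (hj : j ∈ Ring.jacobson R) : IsUnit (j + 1) := by
  have key : ∀ j ∈ Ring.jacobson R, ∃ z : R, z * (j + 1) = 1 := fun j hj => by
    rw [← Ideal.jacobson_bot, Ideal.mem_jacobson_iff] at hj
    obtain ⟨z, hz⟩ := hj 1
    rw [mul_one, Ideal.mem_bot, sub_eq_zero] at hz
    exact ⟨z, by rw [mul_add, mul_one, hz]⟩
  obtain ⟨z, hz⟩ := key j hj
  obtain ⟨w, hw⟩ := key (-(z * j)) (neg_mem (Ideal.mul_mem_left _ _ hj))
  have h1 : -(z * j) + 1 = z := by rw [← hz, mul_add, mul_one]; abel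
  rw [h1] at hw
  have h2 : w = j + 1 := by
    calc w = w * (z * (j + 1)) := by rw [hz, mul_one]
      _ = j + 1 := by rw [← mul_assoc, hw, one_mul]
  exact ⟨⟨j + 1, z, h2 ▸ hw, hz⟩, rfl⟩

theorem snc_of (a : R) (h : IsNilpotent (a - a ^ 2)) : SNC a := by
  obtain ⟨n, hn⟩ := h
  have hn' : (a - a ^ 2) ^ (n + 1) = 0 := by rw [pow_succ, hn, zero_mul]
  open Polynomial in
  obtain ⟨q, hq⟩ : (X - X ^ 2 : ℤ[X]) ∣ X - (1 - (1 - X ^ (n + 1)) ^ (n + 1)) := by
    obtain ⟨p, hp⟩ : (X : ℤ[X]) ∣ X - (1 - (1 - X ^ (n + 1)) ^ (n + 1)) := X_dvd_iff.2 (by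
      simp [coeff_zero_eq_eval_zero])
    have h1 : p.IsRoot 1 := by
      have := congrArg (eval 1) hp
      simpa using this.symm
    obtain ⟨q, hq⟩ := dvd_iff_isRoot.2 h1
    exact ⟨-q, by rw [hp, hq]; simp only [map_one]; ring⟩
  have h2 := congrArg (Polynomial.aeval a) hq
  simp only [map_sub, map_mul, map_pow, map_one, Polynomial.aeval_X] at h2
  have hc : Commute (a - a ^ 2) (Polynomial.aeval a q) := by
    have := congrArg (Polynomial.aeval a) (mul_comm (Polynomial.X - Polynomial.X ^ 2) q)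
    simp only [map_sub, map_mul, map_pow, Polynomial.aeval_X] at this
    exact this
  have hc2 : Commute (1 - (1 - a ^ (n + 1)) ^ (n + 1)) a :=
    (Commute.one_left _).sub_left (((Commute.one_left _).sub_left
      ((Commute.refl a).pow_left _)).pow_left _)
  refine ⟨1 - (1 - a ^ (n + 1)) ^ (n + 1), a - (1 - (1 - a ^ (n + 1)) ^ (n + 1)),
    isIdempotentElem_one_sub_one_sub_pow_pow a _ hn', ?_, (hc2.sub_right (Commute.refl _)).eq,
    by abel⟩
  rw [h2]
  exact hc.isNilpotent_mul_right ⟨n, hn⟩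

theorem snc_unit {u : R} (hu : IsUnit u) (h : SNC u) : IsNilpotent (u - 1) := by
  obtain ⟨e, b, he, hb, hc, rfl⟩ := h
  have h1 : IsUnit (e + b + -b) := hb.neg.isUnit_add_left_of_commute hu
    (((Commute.symm hc).add_right (Commute.refl b)).neg_left)
  rw [add_neg_cancel_right] at h1
  rw [hu.mul_left_cancel (a := e + b) (b := e + b - 1) (c := b) ?_]
  · exact hb
  · have : e = 1 := h1.mul_left_cancel (he.eq.trans (mul_one e).symm)
    rw [this, add_sub_cancel_left]

theorem snc_idem {I : Submodule Rᵐᵒᵖ R} {a : R} (ha : a ∈ I) (hn : ¬ IsNilpotent a) (h : SNC a) :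
    ∃ e ∈ I, IsIdempotentElem e ∧ e ≠ 0 := by
  obtain ⟨e, b, he, hb, hc, rfl⟩ := h
  obtain ⟨v, hv⟩ := hb.isUnit_one_add.exists_right_inv
  refine ⟨e, ?_, he, fun h0 => hn (by rwa [h0, zero_add])⟩
  have := I.smul_mem (MulOpposite.op (e * v)) ha
  rwa [MulOpposite.smul_eq_mul_unop, MulOpposite.unop_op, ← mul_assoc, add_mul, he.eq, ← hc,
    ← mul_one_add, mul_assoc, hv, mul_one] at this

end

theorem result (R : Type) [Ring R] :
    (∀ a : R, SNC a ∨ SNC (-a)) ↔ SemiPotent R ∧ WUU R := by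
  constructor
  · intro h
    refine ⟨fun I hI => ?_, fun u => ⟨fun hu => ?_, ?_⟩⟩
    · have : ∃ a ∈ I, ¬ IsNilpotent a := by
        by_contra hn
        push Not at hn
        refine hI fun x hx => ?_
        rw [← Ideal.jacobson_bot, Ideal.mem_jacobson_iff]
        intro y
        obtain ⟨n, h1⟩ := hn _ (I.smul_mem (MulOpposite.op y) hx)
        rw [MulOpposite.smul_eq_mul_unop, MulOpposite.unop_op] at h1
        have h2 : IsNilpotent (y * x) := ⟨n + 1, by
          rw [pow_succ', mul_assoc, ← mul_pow_mul, h1, zero_mul, mul_zero]⟩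
        obtain ⟨z, hz⟩ := h2.isUnit_add_one.exists_left_inv
        exact ⟨z, by rw [Ideal.mem_bot, sub_eq_zero, ← hz, mul_add, mul_one, mul_assoc]⟩
      obtain ⟨a, ha, hn⟩ := this
      rcases h a with k | k
      · exact snc_idem ha hn k
      · exact snc_idem (neg_mem ha) (by simpa using hn) k
    · rcases h u with k | k
      · exact ⟨u - 1, snc_unit hu k, Or.inl (by abel)⟩
      · exact ⟨-(-u - 1), (snc_unit hu.neg k).neg, Or.inr (by abel)⟩
    · rintro ⟨n, hn, rfl | rfl⟩
      · exact hn.isUnit_add_one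
      · exact hn.isUnit_sub_one
  · rintro ⟨hP, hW⟩
    have W0 : ∀ u : R, IsUnit u → IsNilpotent (u - 1) ∨ IsNilpotent (u + 1) := fun u hu => by
      obtain ⟨n, hn, rfl | rfl⟩ := (hW u).1 hu
      · exact Or.inl (by simpa using hn)
      · exact Or.inr (by simpa using hn)
    obtain ⟨π, hπ, hk⟩ : ∃ π : R →+* R ⧸ Ring.jacobson R, Function.Surjective π ∧
        ∀ x, π x = 0 ↔ x ∈ Ring.jacobson R :=
      ⟨Ideal.Quotient.mk _, Ideal.Quotient.mk_surjective, fun x => Ideal.Quotient.eq_zero_iff_mem⟩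
    have W : ∀ u : R ⧸ Ring.jacobson R, IsUnit u →
        IsNilpotent (u - 1) ∨ IsNilpotent (u + 1) := by
      intro u hu
      obtain ⟨v, hv1⟩ := hu.exists_right_inv
      have hv2 : v * u = 1 := by
        obtain ⟨w, hw⟩ := hu.exists_left_inv
        rw [← one_mul v, ← hw, mul_assoc w, hv1, mul_one, hw]
      obtain ⟨u, rfl⟩ := hπ u
      obtain ⟨v, rfl⟩ := hπ v
      have k1 := unit_of_J ((hk (u * v - 1)).1 (by simp [hv1]))
      have k2 := unit_of_J ((hk (v * u - 1)).1 (by simp [hv2]))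
      rw [sub_add_cancel] at k1 k2
      obtain ⟨a, ha⟩ := k1.exists_right_inv
      obtain ⟨b, hb⟩ := k2.exists_left_inv
      have hu' : IsUnit u := isUnit_iff_exists_and_exists.2
        ⟨⟨v * a, by rw [← mul_assoc, ha]⟩, ⟨b * v, by rw [mul_assoc, hb]⟩⟩
      rcases W0 u hu' with k | k
      · exact Or.inl (by simpa using k.map π)
      · exact Or.inr (by simpa using k.map π)
    have P : ∀ a : R ⧸ Ring.jacobson R, a ≠ 0 → ∃ r, a * r * (a * r) = a * r ∧ a * r ≠ 0 := by
      intro a ha
      obtain ⟨a, rfl⟩ := hπ a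
      obtain ⟨e, h1, h2, h3⟩ := hP (Submodule.span Rᵐᵒᵖ {a}) fun k =>
        ha ((hk a).2 (k a (Submodule.mem_span_singleton_self a)))
      obtain ⟨r, rfl⟩ := Submodule.mem_span_singleton.1 h1
      rw [MulOpposite.smul_eq_mul_unop] at h2 h3
      refine ⟨π r.unop, by rw [← map_mul, ← map_mul, h2.eq], fun k => h3 ?_⟩
      have k1 := unit_of_J (neg_mem ((hk _).1 ((map_mul π _ _).trans k)))
      apply k1.mul_left_cancel
      rw [add_mul, neg_mul, h2.eq, one_mul, neg_add_cancel, mul_zero]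
    have hnil : ∀ j ∈ Ring.jacobson R, IsNilpotent j := by
      intro j hj
      rcases W0 _ (unit_of_J hj) with k | k
      · simpa using k
      · have h1 := nil_zero W P _ (k.map π)
        have h2 : (1 + 1 : R) ∈ Ring.jacobson R := (hk _).1 (by
          simpa only [map_add, (hk j).2 hj, zero_add] using h1)
        have h3 : IsNilpotent (1 + 1 : R) := by
          rcases W0 _ (unit_of_J h2) with k' | k'
          · simpa using k'
          · obtain ⟨n, hn⟩ := k'
            exact ⟨2 * n, by rw [pow_mul, ← hn]; congr 1; noncomm_ring⟩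
        have h4 : Commute (j + 1 + 1) (1 + 1 : R) :=
          (Commute.one_right _).add_right (Commute.one_right _)
        have := h4.isNilpotent_sub k h3
        rwa [add_assoc, add_sub_cancel_right] at this
    intro a
    rcases tri W P (π a) with k | k
    · exact Or.inl (snc_of a (hnil _ ((hk _).1 (by rw [map_sub, pow_two, map_mul, k, sub_self]))))
    · exact Or.inr (snc_of _ (hnil _ ((hk _).1 (by
        rw [map_sub, pow_two, map_mul, map_neg, k, sub_self]))))

end Pool.Agent.Results.MP_2093e0_al.Iff
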